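import Pool.Agent.Lib.FLF.Lam

/-!
# The combinatorial step: which primes divide some `l - 1`, `l ≤ x` prime
-/

set_option autoImplicit false

namespace Pool.Agent.FLF

open Finset

theorem comb (x J : ℕ) (hJ : 1 ≤ J) (hx : 2 ≤ x) : ∃ M : ℕ, 0 < M ∧
    (∀ l : ℕ, l.Prime → l ≤ x → l - 1 ∣ M) ∧
    Real.log M ≤ Real.log x * ((((Finset.Icc 1 (x / J)).filter Nat.Prime).card : ℝ) +
      ∑ k ∈ Finset.Icc 1 J, ((((Finset.Icc 1 (x / k)).filter fun r =>
        r.Prime ∧ (k * r + 1).Prime).card : ℝ))) := by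
  refine ⟨M x, M_pos x, fun l hl hlx => dvd_M hl hlx, ?_⟩
  have hlog := log_M (x := x) (by omega)
  have hL : 0 ≤ Real.log (x : ℝ) := Real.log_natCast_nonneg x
  have hsub : B x ⊆ ((Icc 1 (x / J)).filter Nat.Prime) ∪
      (Icc 1 J).biUnion fun k => (Icc 1 (x / k)).filter fun r =>
        r.Prime ∧ (k * r + 1).Prime := by
    intro r hr
    obtain ⟨⟨h1, h2⟩, h3, l, h4, h5, h6⟩ := mem_B.1 hr
    rw [mem_union]
    by_cases h : r ≤ x / J
    · left
      rw [mem_filter, mem_Icc]
      exact ⟨⟨h1, h⟩, h3⟩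
    · right
      obtain ⟨k, hk⟩ := h6
      have h7 := h4.two_le
      have h8 : x < r * J := by
        rw [not_le, Nat.div_lt_iff_lt_mul hJ] at h
        exact h
      have hk1 : 1 ≤ k := by
        rcases Nat.eq_zero_or_pos k with h0 | h0
        · rw [h0, mul_zero] at hk
          omega
        · exact h0
      have hkJ : k ≤ J := by
        by_contra hcon
        have : r * J ≤ r * k := Nat.mul_le_mul le_rfl (by omega)
        omega
      rw [mem_biUnion]
      refine ⟨k, mem_Icc.2 ⟨hk1, hkJ⟩, ?_⟩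
      rw [mem_filter, mem_Icc]
      refine ⟨⟨h1, ?_⟩, h3, ?_⟩
      · rw [Nat.le_div_iff_mul_le (by omega)]
        omega
      · have : k * r + 1 = l := by
          rw [mul_comm]
          omega
        rw [this]
        exact h4
  have h1 := (card_le_card hsub).trans (card_union_le _ _)
  have h3 := card_biUnion_le (s := Icc 1 J) (t := fun k => (Icc 1 (x / k)).filter fun r =>
        r.Prime ∧ (k * r + 1).Prime)
  have h4 : (B x).card ≤ ((Icc 1 (x / J)).filter Nat.Prime).card + ∑ k ∈ Icc 1 J,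
      ((Icc 1 (x / k)).filter fun r => r.Prime ∧ (k * r + 1).Prime).card := by
    omega
  have h5 : ((B x).card : ℝ) ≤ (((Icc 1 (x / J)).filter Nat.Prime).card : ℝ) + ∑ k ∈ Icc 1 J,
      (((Icc 1 (x / k)).filter fun r => r.Prime ∧ (k * r + 1).Prime).card : ℝ) := by
    exact_mod_cast h4
  rw [mul_comm] at hlog
  exact hlog.trans (mul_le_mul_of_nonneg_left h5 hL)

end Pool.Agent.FLF
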