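import Mathlib

/-!
# Fermat numbers without small prime factors

`core`: if `l - 1 ∣ m + 1` for every prime `l ≤ 2 y + 1`, the prime factors of
`F_m = 2 ^ (2 ^ m) + 1` exceed `y 2 ^ (m + 2)`.  `count`, `main`: the number of such `m`.
-/

open Finset

namespace Pool.Agent.FLF

/-- If `l - 1 ∣ m + 1` for every prime `l ≤ 2 y + 1`, the prime factors of `F_m` exceed
`y 2 ^ (m + 2)`. -/
theorem core {m y q : ℕ} (hm : 2 ≤ m) (h : ∀ l : ℕ, l.Prime → l ≤ 2 * y + 1 → l - 1 ∣ m + 1)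
    (hq : q.Prime) (hd : q ∣ 2 ^ (2 ^ m) + 1) : y * 2 ^ (m + 2) < q := by
  obtain ⟨k, hk⟩ := Nat.fermat_primeFactors_one_lt m q (by omega) hq hd
  by_contra hlt
  push Not at hlt
  have hpow : 0 < 2 ^ (m + 2) := by positivity
  have hky : k < y := by
    by_contra hc
    push Not at hc
    have := Nat.mul_le_mul_right (2 ^ (m + 2)) hc
    omega
  have hk0 : 0 < k := by
    rcases Nat.eq_zero_or_pos k with h0 | h0
    · rw [h0, zero_mul, zero_add] at hk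
      exact absurd hk hq.ne_one
    · exact h0
  have hl : (2 * k + 1).minFac.Prime := Nat.minFac_prime (by omega)
  have hld : (2 * k + 1).minFac ∣ 2 * k + 1 := Nat.minFac_dvd _
  have hle : (2 * k + 1).minFac ≤ 2 * k + 1 := Nat.minFac_le (by omega)
  set l := (2 * k + 1).minFac with hl'
  have hl2 : l ≠ 2 := by
    intro h2
    rw [h2] at hld
    omega
  have hdv : l - 1 ∣ m + 1 := h l hl (by omega)
  have : Fact l.Prime := ⟨hl⟩
  have h20 : (2 : ZMod l) ≠ 0 := by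
    intro h0
    have h1 : ((2 : ℕ) : ZMod l) = 0 := by exact_mod_cast h0
    have h2 := (ZMod.natCast_eq_zero_iff 2 l).1 h1
    exact hl2 ((Nat.prime_dvd_prime_iff_eq hl Nat.prime_two).1 h2)
  have hf : (2 : ZMod l) ^ (m + 1) = 1 := by
    obtain ⟨c, hc⟩ := hdv
    rw [hc, pow_mul, ZMod.pow_card_sub_one_eq_one h20, one_pow]
  have hdq : l ∣ q := by
    rw [← ZMod.natCast_eq_zero_iff, hk]
    have h1 : ((2 * k + 1 : ℕ) : ZMod l) = 0 := (ZMod.natCast_eq_zero_iff _ _).2 hld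
    push_cast at h1 ⊢
    rw [show m + 2 = (m + 1) + 1 by ring, pow_succ, hf, one_mul, mul_comm]
    exact h1
  have heq := (Nat.prime_dvd_prime_iff_eq hl hq).1 hdq
  have h4 : 2 ^ 4 ≤ 2 ^ (m + 2) := Nat.pow_le_pow_right (by norm_num) (by omega)
  have h5 : k * 2 ^ 4 ≤ k * 2 ^ (m + 2) := Nat.mul_le_mul_left k h4
  omega

open scoped Classical in
/-- At least `X / M - 3` of the `m ≤ X` have all prime factors of `F_m` above `y 2 ^ (m + 2)`, if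
`l - 1 ∣ M` for every prime `l ≤ 2 y + 1`. -/
theorem count {X M y : ℕ} (hM : 0 < M) (h : ∀ l : ℕ, l.Prime → l ≤ 2 * y + 1 → l - 1 ∣ M) :
    (X : ℝ) / M - 3 ≤ (((range (X + 1)).filter (fun m : ℕ =>
      ∀ q : ℕ, q.Prime → q ∣ 2 ^ (2 ^ m) + 1 → y * 2 ^ (m + 2) < q)).card : ℝ) := by
  classical
  have hsub : (Icc 3 (X / M)).image (fun t => M * t - 1) ⊆ (range (X + 1)).filter (fun m : ℕ =>
      ∀ q : ℕ, q.Prime → q ∣ 2 ^ (2 ^ m) + 1 → y * 2 ^ (m + 2) < q) := by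
    intro m hm
    obtain ⟨t, ht, rfl⟩ := Finset.mem_image.1 hm
    obtain ⟨ht3, htX⟩ := Finset.mem_Icc.1 ht
    have h1 : M * t ≤ X := by
      calc M * t ≤ M * (X / M) := Nat.mul_le_mul_left M htX
        _ ≤ X := Nat.mul_div_le X M
    have h3 : 3 ≤ M * t := by
      calc 3 ≤ t := ht3
        _ = 1 * t := (one_mul t).symm
        _ ≤ M * t := Nat.mul_le_mul_right t hM
    refine Finset.mem_filter.2 ⟨Finset.mem_range.2 (by omega), fun q hq hd => ?_⟩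
    refine core (by omega) (fun l hl hle => ?_) hq hd
    rw [show M * t - 1 + 1 = M * t by omega]
    exact Dvd.dvd.mul_right (h l hl hle) t
  have hinj : Set.InjOn (fun t => M * t - 1) ((Icc 3 (X / M) : Finset ℕ) : Set ℕ) := by
    intro a ha b hb hab
    have ha3 := (Finset.mem_Icc.1 (Finset.mem_coe.1 ha)).1
    have hb3 := (Finset.mem_Icc.1 (Finset.mem_coe.1 hb)).1
    have h1 : 1 ≤ M * a := Nat.mul_pos hM (by omega)
    have h2 : 1 ≤ M * b := Nat.mul_pos hM (by omega)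
    have h3 : M * a = M * b := by
      simp only at hab
      omega
    exact Nat.eq_of_mul_eq_mul_left hM h3
  have hc := Finset.card_le_card hsub
  rw [Finset.card_image_of_injOn hinj, Nat.card_Icc] at hc
  have h4 : (X : ℝ) / M < ((X / M : ℕ) : ℝ) + 1 := by
    have hMr : (0 : ℝ) < M := by exact_mod_cast hM
    rw [div_lt_iff₀ hMr]
    have := Nat.lt_mul_div_succ X hM
    have h5 : ((X : ℕ) : ℝ) < ((M * (X / M + 1) : ℕ) : ℝ) := by exact_mod_cast this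
    push_cast at h5 ⊢
    linarith
  have h6 : ((X / M : ℕ) : ℝ) + 1 - 3 ≤ ((X / M + 1 - 3 : ℕ) : ℝ) := by
    rcases le_or_gt 3 (X / M + 1) with h | h
    · rw [Nat.cast_sub h]
      push_cast
      linarith
    · have h7 : ((X / M : ℕ) : ℝ) + 1 < 3 := by exact_mod_cast h
      have h8 : (0 : ℝ) ≤ ((X / M + 1 - 3 : ℕ) : ℝ) := Nat.cast_nonneg _
      linarith
  have h9 : ((X / M + 1 - 3 : ℕ) : ℝ) ≤ _ := Nat.cast_le.2 hc
  linarith

open Filter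

open scoped Classical in
/-- The count, from a bound `C x / (log x) ^ (2 / 5)` for the logarithm of a common multiple of the
`l - 1`, `l ≤ x` prime. -/
theorem main (lam : ∃ C : ℝ, 0 < C ∧ ∃ x₀ : ℕ, ∀ x : ℕ, x₀ ≤ x → ∃ M : ℕ, 0 < M ∧
      (∀ l : ℕ, l.Prime → l ≤ x → l - 1 ∣ M) ∧
      Real.log M ≤ C * x / Real.log x ^ (2 / 5 : ℝ))
    (ε : ℝ) (hε : 0 < ε) :
    ∃ X₀ : ℕ, ∀ X : ℕ, X₀ ≤ X → (X : ℝ) ^ (1 - ε) ≤ (((range (X + 1)).filter (fun m : ℕ =>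
      ∀ q : ℕ, q.Prime → q ∣ 2 ^ (2 ^ m) + 1 →
        (2 : ℝ) ^ m * Real.log X * Real.log (Real.log X) ^ (1 / 3 : ℝ) < q)).card : ℝ) := by
  classical
  obtain ⟨C, hC, x₀, hlam⟩ := lam
  set δ : ℝ := min ε 1 with hδ
  have hδ0 : 0 < δ := lt_min hε one_pos
  have hδ1 : δ ≤ 1 := min_le_right _ _
  have hδε : δ ≤ ε := min_le_left _ _
  have hlog : Tendsto (fun X : ℕ => Real.log (X : ℝ)) atTop atTop :=
    Real.tendsto_log_atTop.comp tendsto_natCast_atTop_atTop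
  have hll : Tendsto (fun X : ℕ => Real.log (Real.log (X : ℝ))) atTop atTop :=
    Real.tendsto_log_atTop.comp hlog
  have e1 : ∀ᶠ X : ℕ in atTop, 3 ≤ Real.log (X : ℝ) := hlog.eventually_ge_atTop 3
  have e2 : ∀ᶠ X : ℕ in atTop, (x₀ : ℝ) ≤ Real.log (X : ℝ) := hlog.eventually_ge_atTop _
  have e3 : ∀ᶠ X : ℕ in atTop, 2 ≤ Real.log (Real.log (X : ℝ)) ^ (1 / 3 : ℝ) :=
    ((tendsto_rpow_atTop (by norm_num : (0 : ℝ) < 1 / 3)).comp hll).eventually_ge_atTop 2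
  have e4 : ∀ᶠ X : ℕ in atTop, 2 * C / δ ≤ Real.log (Real.log (X : ℝ)) ^ (1 / 15 : ℝ) :=
    ((tendsto_rpow_atTop (by norm_num : (0 : ℝ) < 1 / 15)).comp hll).eventually_ge_atTop _
  have e5 : ∀ᶠ X : ℕ in atTop, 4 ≤ (X : ℝ) ^ (δ / 2) :=
    ((tendsto_rpow_atTop (by positivity : (0 : ℝ) < δ / 2)).comp
      tendsto_natCast_atTop_atTop).eventually_ge_atTop 4
  have e6 : ∀ᶠ X : ℕ in atTop, 1 ≤ Real.log (Real.log (X : ℝ)) := hll.eventually_ge_atTop 1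
  obtain ⟨X₀, hX₀⟩ := eventually_atTop.1
    (e1.and (e2.and (e3.and (e4.and (e5.and (e6.and (eventually_ge_atTop 1)))))))
  refine ⟨X₀, fun X hX => ?_⟩
  obtain ⟨h1, h2, h3, h4, h5, h6, h7⟩ := hX₀ X hX
  set L : ℝ := Real.log (X : ℝ) with hL
  set W : ℝ := Real.log L with hW
  set y : ℕ := ⌈L * W ^ (1 / 3 : ℝ) / 4⌉₊ with hy
  have hW0 : 0 < W := by linarith
  have hL0 : 0 < L := by linarith
  have hX1 : (1 : ℝ) ≤ X := by exact_mod_cast h7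
  have hX0 : (0 : ℝ) < X := by linarith
  have hy1 : L * W ^ (1 / 3 : ℝ) ≤ 4 * y := by
    have := Nat.le_ceil (L * W ^ (1 / 3 : ℝ) / 4)
    rw [← hy] at this
    linarith
  have hprod : 6 ≤ L * W ^ (1 / 3 : ℝ) := by nlinarith
  have hy2 : (y : ℝ) < L * W ^ (1 / 3 : ℝ) / 4 + 1 := by
    rw [hy]
    exact Nat.ceil_lt_add_one (by positivity)
  have hx1 : L ≤ ((2 * y + 1 : ℕ) : ℝ) := by
    push_cast
    nlinarith
  have hx2 : ((2 * y + 1 : ℕ) : ℝ) ≤ L * W ^ (1 / 3 : ℝ) := by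
    push_cast
    linarith
  have hx0 : x₀ ≤ 2 * y + 1 := by
    have : (x₀ : ℝ) ≤ ((2 * y + 1 : ℕ) : ℝ) := h2.trans hx1
    exact_mod_cast this
  obtain ⟨M, hM, hdiv, hlogM⟩ := hlam (2 * y + 1) hx0
  have hMr : (0 : ℝ) < M := by exact_mod_cast hM
  have hlx : W ≤ Real.log ((2 * y + 1 : ℕ) : ℝ) := by
    rw [hW]
    exact Real.log_le_log hL0 hx1
  have hM2 : Real.log M ≤ δ / 2 * L := by
    refine hlogM.trans ?_
    have hpos : 0 < W ^ (2 / 5 : ℝ) := Real.rpow_pos_of_pos hW0 _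
    have a1 : C * ((2 * y + 1 : ℕ) : ℝ) / Real.log ((2 * y + 1 : ℕ) : ℝ) ^ (2 / 5 : ℝ) ≤
        C * (L * W ^ (1 / 3 : ℝ)) / W ^ (2 / 5 : ℝ) := by
      gcongr
    refine a1.trans ?_
    rw [div_le_iff₀ hpos]
    have a2 : W ^ (2 / 5 : ℝ) = W ^ (1 / 15 : ℝ) * W ^ (1 / 3 : ℝ) := by
      rw [← Real.rpow_add hW0]
      norm_num
    rw [a2]
    have a3 : 2 * C ≤ W ^ (1 / 15 : ℝ) * δ := (div_le_iff₀ hδ0).1 h4
    have a4 : 0 ≤ L * W ^ (1 / 3 : ℝ) := by positivity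
    nlinarith
  have hM3 : (M : ℝ) ≤ (X : ℝ) ^ (δ / 2) := by
    rw [← Real.log_le_log_iff hMr (Real.rpow_pos_of_pos hX0 _), Real.log_rpow hX0]
    exact hM2
  have hX2 : (X : ℝ) ^ (1 - δ / 2) ≤ (X : ℝ) / M := by
    rw [le_div_iff₀ hMr]
    calc (X : ℝ) ^ (1 - δ / 2) * M ≤ (X : ℝ) ^ (1 - δ / 2) * (X : ℝ) ^ (δ / 2) := by gcongr
      _ = X := by
          rw [← Real.rpow_add hX0]
          norm_num
  have hX3 : (X : ℝ) ^ (1 - δ / 2) = (X : ℝ) ^ (1 - δ) * (X : ℝ) ^ (δ / 2) := by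
    rw [← Real.rpow_add hX0]
    congr 1
    ring
  have hX4 : 1 ≤ (X : ℝ) ^ (1 - δ) := Real.one_le_rpow hX1 (by linarith)
  have hX5 : (X : ℝ) ^ (1 - ε) ≤ (X : ℝ) ^ (1 - δ) :=
    Real.rpow_le_rpow_of_exponent_le hX1 (by linarith)
  have hX6 : (X : ℝ) ^ (1 - ε) ≤ (X : ℝ) / M - 3 := by nlinarith
  refine hX6.trans ((count hM hdiv).trans ?_)
  refine Nat.cast_le.2 (Finset.card_le_card fun m hm => ?_)
  obtain ⟨hm1, hm2⟩ := Finset.mem_filter.1 hm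
  refine Finset.mem_filter.2 ⟨hm1, fun q hq hd => ?_⟩
  have b1 : ((y * 2 ^ (m + 2) : ℕ) : ℝ) < q := Nat.cast_lt.2 (hm2 q hq hd)
  refine lt_of_le_of_lt ?_ b1
  push_cast
  have b2 : (0 : ℝ) < 2 ^ m := by positivity
  calc (2 : ℝ) ^ m * L * W ^ (1 / 3 : ℝ) = 2 ^ m * (L * W ^ (1 / 3 : ℝ)) := by ring
    _ ≤ 2 ^ m * (4 * y) := by gcongr
    _ = y * 2 ^ (m + 2) := by ring

end Pool.Agent.FLF
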