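import Pool.Agent.Lib.FLF.Core

/-!
# Fermat numbers without small prime factors: the sharper count
-/

open Finset Filter

namespace Pool.Agent.FLF

open scoped Classical in
/-- The count, from a bound `C x log log x / log x` for the logarithm of a common multiple of the
`l - 1`, `l ≤ x` prime. -/
theorem main2 (lam : ∃ C : ℝ, 0 < C ∧ ∃ x₀ : ℕ, ∀ x : ℕ, x₀ ≤ x → ∃ M : ℕ, 0 < M ∧
      (∀ l : ℕ, l.Prime → l ≤ x → l - 1 ∣ M) ∧
      Real.log M ≤ C * x * Real.log (Real.log x) / Real.log x)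
    (ε : ℝ) (hε : 0 < ε) :
    ∃ c : ℝ, 0 < c ∧ ∃ X₀ : ℕ, ∀ X : ℕ, X₀ ≤ X →
      (X : ℝ) ^ (1 - ε) ≤ (((range (X + 1)).filter (fun m : ℕ =>
      ∀ q : ℕ, q.Prime → q ∣ 2 ^ (2 ^ m) + 1 →
        c * 2 ^ m * (Real.log X * Real.log (Real.log X) / Real.log (Real.log (Real.log X))) <
          q)).card : ℝ) := by
  obtain ⟨C, hC, x₀, hlam⟩ := lam
  set δ : ℝ := min ε 1 with hδ
  have hδ0 : 0 < δ := lt_min hε one_pos
  have hδ1 : δ ≤ 1 := min_le_right _ _
  have hδε : δ ≤ ε := min_le_left _ _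
  set c : ℝ := min (δ / (12 * C)) (1 / 3) with hc
  have hc0 : 0 < c := lt_min (by positivity) (by norm_num)
  have hc3 : c ≤ 1 / 3 := min_le_right _ _
  have hcC : 12 * C * c ≤ δ := by
    have h1 : c ≤ δ / (12 * C) := min_le_left _ _
    have h2 := (le_div_iff₀ (by positivity : 0 < 12 * C)).1 h1
    linarith
  refine ⟨4 * c, by positivity, ?_⟩
  have hlog : Tendsto (fun X : ℕ => Real.log (X : ℝ)) atTop atTop :=
    Real.tendsto_log_atTop.comp tendsto_natCast_atTop_atTop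
  have hll : Tendsto (fun X : ℕ => Real.log (Real.log (X : ℝ))) atTop atTop :=
    Real.tendsto_log_atTop.comp hlog
  have hlll : Tendsto (fun X : ℕ => Real.log (Real.log (Real.log (X : ℝ)))) atTop atTop :=
    Real.tendsto_log_atTop.comp hll
  -- `log t ≤ η t` for large `t`
  have hsmall : ∀ η : ℝ, 0 < η → ∀ᶠ t : ℝ in atTop, Real.log t ≤ η * t := by
    intro η hη
    have h := Real.isLittleO_log_id_atTop.bound hη
    filter_upwards [h, eventually_ge_atTop 1] with t ht h1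
    rw [Real.norm_of_nonneg (Real.log_nonneg h1), id, Real.norm_of_nonneg (by linarith)] at ht
    exact ht
  have e1 : ∀ᶠ X : ℕ in atTop, 3 ≤ Real.log (X : ℝ) := hlog.eventually_ge_atTop 3
  have e2 : ∀ᶠ X : ℕ in atTop, (x₀ : ℝ) ≤ Real.log (X : ℝ) := hlog.eventually_ge_atTop _
  have e3 : ∀ᶠ X : ℕ in atTop, Real.log (Real.log (Real.log (X : ℝ))) ≤
      2 * c * Real.log (Real.log (X : ℝ)) := hll.eventually (hsmall (2 * c) (by positivity))
  have e4 : ∀ᶠ X : ℕ in atTop, 1 ≤ Real.log (Real.log (Real.log (X : ℝ))) :=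
    hlll.eventually_ge_atTop 1
  have e5 : ∀ᶠ X : ℕ in atTop, 4 ≤ (X : ℝ) ^ (δ / 2) :=
    ((tendsto_rpow_atTop (by positivity : (0 : ℝ) < δ / 2)).comp
      tendsto_natCast_atTop_atTop).eventually_ge_atTop 4
  have e6 : ∀ᶠ X : ℕ in atTop, 1 ≤ Real.log (Real.log (X : ℝ)) := hll.eventually_ge_atTop 1
  have e7 : ∀ᶠ X : ℕ in atTop, Real.log (Real.log (X : ℝ)) ≤ 1 * Real.log (X : ℝ) :=
    hlog.eventually (hsmall 1 one_pos)
  have e8 : ∀ᶠ X : ℕ in atTop, 3 ≤ c * Real.log (X : ℝ) :=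
    (hlog.const_mul_atTop hc0).eventually_ge_atTop 3
  obtain ⟨X₀, hX₀⟩ := eventually_atTop.1
    (e1.and (e2.and (e3.and (e4.and (e5.and (e6.and (e7.and (e8.and
      (eventually_ge_atTop 1)))))))))
  refine ⟨X₀, fun X hX => ?_⟩
  obtain ⟨h1, h2, h3, h4, h5, h6, h7, h8, h9⟩ := hX₀ X hX
  set L : ℝ := Real.log (X : ℝ) with hL
  set W : ℝ := Real.log L with hW
  set V : ℝ := Real.log W with hV
  set T : ℝ := L * W / V with hT
  set y : ℕ := ⌈c * T⌉₊ with hy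
  have hV0 : 0 < V := by linarith
  have hW0 : 0 < W := by linarith
  have hL0 : 0 < L := by linarith
  have hVW : V ≤ W := by
    have := Real.log_le_sub_one_of_pos hW0
    rw [← hV] at this
    linarith
  have hT1 : L ≤ T := by
    rw [hT, le_div_iff₀ hV0]
    exact mul_le_mul_of_nonneg_left hVW hL0.le
  have hT2 : L ≤ 2 * c * T := by
    rw [hT, ← mul_div_assoc, le_div_iff₀ hV0]
    calc L * V ≤ L * (2 * c * W) := mul_le_mul_of_nonneg_left h3 hL0.le
      _ = 2 * c * (L * W) := by ring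
  have hT3 : T ≤ L * L := by
    rw [hT, div_le_iff₀ hV0]
    have a1 : L * W ≤ L * L := mul_le_mul_of_nonneg_left (by linarith) hL0.le
    have a2 : L * L * 1 ≤ L * L * V := mul_le_mul_of_nonneg_left h4 (by positivity)
    linarith
  have hT0 : 0 < T := by linarith
  have hcT : 3 ≤ c * T := h8.trans (mul_le_mul_of_nonneg_left hT1 hc0.le)
  have hX1 : (1 : ℝ) ≤ X := by exact_mod_cast h9
  have hX0 : (0 : ℝ) < X := by linarith
  have hy1 : c * T ≤ y := by
    have := Nat.le_ceil (c * T)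
    rwa [← hy] at this
  have hy2 : (y : ℝ) < c * T + 1 := by
    rw [hy]
    exact Nat.ceil_lt_add_one (by positivity)
  have hx1 : L ≤ ((2 * y + 1 : ℕ) : ℝ) := by
    push_cast
    linarith
  have hx2 : ((2 * y + 1 : ℕ) : ℝ) ≤ 3 * c * T := by
    push_cast
    linarith
  have hx0 : x₀ ≤ 2 * y + 1 := by
    have : (x₀ : ℝ) ≤ ((2 * y + 1 : ℕ) : ℝ) := h2.trans hx1
    exact_mod_cast this
  obtain ⟨M, hM, hdiv, hlogM⟩ := hlam (2 * y + 1) hx0
  have hMr : (0 : ℝ) < M := by exact_mod_cast hM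
  have hxpos : (0 : ℝ) < ((2 * y + 1 : ℕ) : ℝ) := by linarith
  have hlx : W ≤ Real.log ((2 * y + 1 : ℕ) : ℝ) := Real.log_le_log hL0 hx1
  have hlx2 : Real.log ((2 * y + 1 : ℕ) : ℝ) ≤ W + W := by
    have a1 : ((2 * y + 1 : ℕ) : ℝ) ≤ L * L := by
      have : 3 * c * T ≤ 1 * T := mul_le_mul_of_nonneg_right (by linarith) hT0.le
      linarith
    calc Real.log ((2 * y + 1 : ℕ) : ℝ) ≤ Real.log (L * L) := Real.log_le_log hxpos a1
      _ = W + W := by rw [Real.log_mul hL0.ne' hL0.ne']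
  have hllx : Real.log (Real.log ((2 * y + 1 : ℕ) : ℝ)) ≤ 2 * V := by
    have a1 : Real.log (W + W) = Real.log 2 + V := by
      rw [← two_mul, Real.log_mul (by norm_num) hW0.ne']
    have a2 := Real.log_two_lt_d9
    have a3 : Real.log (Real.log ((2 * y + 1 : ℕ) : ℝ)) ≤ Real.log (W + W) :=
      Real.log_le_log (by linarith) hlx2
    norm_num at a2
    linarith
  have hM2 : Real.log M ≤ δ / 2 * L := by
    refine hlogM.trans ?_
    have a0 : C * ((2 * y + 1 : ℕ) : ℝ) * Real.log (Real.log ((2 * y + 1 : ℕ) : ℝ)) ≤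
        C * (3 * c * T) * (2 * V) := by
      have b1 : C * ((2 * y + 1 : ℕ) : ℝ) * Real.log (Real.log ((2 * y + 1 : ℕ) : ℝ)) ≤
          C * ((2 * y + 1 : ℕ) : ℝ) * (2 * V) := mul_le_mul_of_nonneg_left hllx (by positivity)
      have b2 : C * ((2 * y + 1 : ℕ) : ℝ) ≤ C * (3 * c * T) :=
        mul_le_mul_of_nonneg_left hx2 hC.le
      exact b1.trans (mul_le_mul_of_nonneg_right b2 (by positivity))
    have a1 : C * ((2 * y + 1 : ℕ) : ℝ) * Real.log (Real.log ((2 * y + 1 : ℕ) : ℝ)) /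
        Real.log ((2 * y + 1 : ℕ) : ℝ) ≤ C * (3 * c * T) * (2 * V) / W :=
      (div_le_div_of_nonneg_right a0 (by linarith)).trans
        (div_le_div_of_nonneg_left (by positivity) hW0 hlx)
    refine a1.trans ?_
    have a2 : C * (3 * c * T) * (2 * V) / W = 6 * C * c * L := by
      rw [hT]
      field_simp
      ring
    rw [a2]
    have a3 : 6 * C * c ≤ δ / 2 := by linarith
    exact mul_le_mul_of_nonneg_right a3 hL0.le
  have hM3 : (M : ℝ) ≤ (X : ℝ) ^ (δ / 2) := by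
    rw [← Real.log_le_log_iff hMr (Real.rpow_pos_of_pos hX0 _), Real.log_rpow hX0]
    exact hM2
  have hX2 : (X : ℝ) ^ (1 - δ / 2) ≤ (X : ℝ) / M := by
    rw [le_div_iff₀ hMr]
    calc (X : ℝ) ^ (1 - δ / 2) * M ≤ (X : ℝ) ^ (1 - δ / 2) * (X : ℝ) ^ (δ / 2) := by gcongr
      _ = X := by
          rw [← Real.rpow_add hX0]
          norm_num
  have hX3 : (X : ℝ) ^ (1 - δ / 2) = (X : ℝ) ^ (1 - δ) * (X : ℝ) ^ (δ / 2) := by
    rw [← Real.rpow_add hX0]
    congr 1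
    ring
  have hX4 : 1 ≤ (X : ℝ) ^ (1 - δ) := Real.one_le_rpow hX1 (by linarith)
  have hX5 : (X : ℝ) ^ (1 - ε) ≤ (X : ℝ) ^ (1 - δ) :=
    Real.rpow_le_rpow_of_exponent_le hX1 (by linarith)
  have hX6 : (X : ℝ) ^ (1 - ε) ≤ (X : ℝ) / M - 3 := by nlinarith
  refine hX6.trans ((count hM hdiv).trans ?_)
  refine Nat.cast_le.2 (Finset.card_le_card fun m hm => ?_)
  obtain ⟨hm1, hm2⟩ := Finset.mem_filter.1 hm
  refine Finset.mem_filter.2 ⟨hm1, fun q hq hd => ?_⟩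
  have b1 : ((y * 2 ^ (m + 2) : ℕ) : ℝ) < q := Nat.cast_lt.2 (hm2 q hq hd)
  refine lt_of_le_of_lt ?_ b1
  push_cast
  have b2 : (0 : ℝ) < 2 ^ m := by positivity
  calc 4 * c * 2 ^ m * T = 4 * 2 ^ m * (c * T) := by ring
    _ ≤ 4 * 2 ^ m * y := by gcongr
    _ = y * 2 ^ (m + 2) := by ring

end Pool.Agent.FLF
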