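import Pool.Agent.Lib.MP_acb0a8_nt.H13Avg

/-!
# The numbers `l - 1`, `l ≤ x` prime, have a small common multiple

If a prime `r` divides `l - 1` then `r ≤ x / J` or `l = k r + 1` with `k ≤ J`; the second case is
rare by an upper bound sieve.
-/

set_option autoImplicit false

namespace Pool.Agent.FLF

open Finset Filter Pool.Agent.ACB13 Pool.Agent.Lib.MP_0bb3d8_nt

open scoped Classical in
/-- the primes `r ≤ x` that divide some `l - 1`, `l ≤ x` prime -/
noncomputable def B (x : ℕ) : Finset ℕ :=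
  (Icc 1 x).filter fun r => r.Prime ∧ ∃ l : ℕ, l.Prime ∧ l ≤ x ∧ r ∣ l - 1

/-- a common multiple of the numbers `l - 1` -/
noncomputable def M (x : ℕ) : ℕ := ∏ r ∈ B x, r ^ Nat.log r x

lemma mem_B {x r : ℕ} : r ∈ B x ↔ (1 ≤ r ∧ r ≤ x) ∧ r.Prime ∧ ∃ l : ℕ, l.Prime ∧ l ≤ x ∧
    r ∣ l - 1 := by
  classical
  simp only [B, mem_filter, mem_Icc]

lemma M_pos (x : ℕ) : 0 < M x :=
  Finset.prod_pos fun _ hr => pow_pos (mem_B.1 hr).2.1.pos _

lemma dvd_M {x l : ℕ} (hl : l.Prime) (hx : l ≤ x) : l - 1 ∣ M x := by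
  have h1 : l - 1 ≠ 0 := by have := hl.two_le; omega
  have h2 : ∏ r ∈ (l - 1).primeFactors, r ^ (l - 1).factorization r = l - 1 := by
    conv_rhs => rw [← Nat.prod_factorization_pow_eq_self h1]
    rfl
  have hsub : (l - 1).primeFactors ⊆ B x := by
    intro r hr
    have h3 := Nat.prime_of_mem_primeFactors hr
    have h4 := Nat.dvd_of_mem_primeFactors hr
    have h5 := Nat.le_of_dvd (Nat.pos_of_ne_zero h1) h4
    exact mem_B.2 ⟨⟨h3.one_lt.le, by omega⟩, h3, l, hl, hx, h4⟩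
  rw [← h2]
  unfold M
  refine (Finset.prod_dvd_prod_of_dvd _ _ fun r hr => ?_).trans
    (Finset.prod_dvd_prod_of_subset _ _ _ hsub)
  have h3 := Nat.prime_of_mem_primeFactors hr
  refine pow_dvd_pow r (Nat.le_log_of_pow_le h3.one_lt ?_)
  have h4 := Nat.ordProj_le r h1
  exact h4.trans (by omega)

lemma log_M {x : ℕ} (hx : x ≠ 0) : Real.log (M x) ≤ (B x).card * Real.log x := by
  have h1 : M x ≤ x ^ (B x).card := by
    unfold M
    exact Finset.prod_le_pow_card _ _ _ fun r _ => Nat.pow_log_le_self r hx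
  have h2 : (M x : ℝ) ≤ (x : ℝ) ^ (B x).card := by exact_mod_cast h1
  have h3 : (0 : ℝ) < M x := by exact_mod_cast M_pos x
  calc Real.log (M x) ≤ Real.log ((x : ℝ) ^ (B x).card) := Real.log_le_log h3 h2
    _ = _ := by rw [Real.log_pow]

open scoped Classical in
/-- the two cases -/
lemma card_B (x J : ℕ) (hJ : 0 < J) : ((B x).card : ℝ) ≤ (Nat.primeCounting (x / J) : ℝ) +
    ∑ k ∈ Icc 1 J, (((Icc 1 x).filter fun n => (1 * n + 0).Prime ∧ (k * n + 1).Prime).card : ℝ) := by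
  have hsub : B x ⊆ ((range (x / J + 1)).filter Nat.Prime) ∪
      (Icc 1 J).biUnion fun k => (Icc 1 x).filter fun n =>
        (1 * n + 0).Prime ∧ (k * n + 1).Prime := by
    intro r hr
    obtain ⟨⟨h1, h2⟩, h3, l, h4, h5, h6⟩ := mem_B.1 hr
    rw [mem_union]
    by_cases h : r ≤ x / J
    · left
      rw [mem_filter, mem_range]
      exact ⟨by omega, h3⟩
    · right
      obtain ⟨k, hk⟩ := h6
      have h7 := h4.two_le
      have h8 : x < r * J := by
        rw [not_le, Nat.div_lt_iff_lt_mul hJ] at h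
        exact h
      have hk1 : 1 ≤ k := by
        rcases Nat.eq_zero_or_pos k with h0 | h0
        · rw [h0, mul_zero] at hk
          omega
        · exact h0
      have hkJ : k ≤ J := by
        by_contra hcon
        have : r * J ≤ r * k := Nat.mul_le_mul le_rfl (by omega)
        omega
      rw [mem_biUnion]
      refine ⟨k, mem_Icc.2 ⟨hk1, hkJ⟩, ?_⟩
      rw [mem_filter, mem_Icc, one_mul, add_zero]
      refine ⟨⟨h1, h2⟩, h3, ?_⟩
      have : k * r + 1 = l := by
        rw [mul_comm]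
        omega
      rw [this]
      exact h4
  have h1 := (card_le_card hsub).trans (card_union_le _ _)
  have h2 : ((range (x / J + 1)).filter Nat.Prime).card = Nat.primeCounting (x / J) := by
    rw [Nat.primeCounting, Nat.primeCounting', Nat.count_eq_card_filter_range]
  have h3 := card_biUnion_le (s := Icc 1 J) (t := fun k => (Icc 1 x).filter fun n =>
        (1 * n + 0).Prime ∧ (k * n + 1).Prime)
  rw [h2] at h1
  have h4 : (B x).card ≤ Nat.primeCounting (x / J) + ∑ k ∈ Icc 1 J,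
      ((Icc 1 x).filter fun n => (1 * n + 0).Prime ∧ (k * n + 1).Prime).card := by
    omega
  exact_mod_cast h4

lemma log_five : (8 / 5 : ℝ) < Real.log 5 := by
  have h1 : Real.exp 8 < 3125 := by
    have h2 : Real.exp 8 = Real.exp 1 ^ 8 := by rw [← Real.exp_nat_mul]; norm_num
    rw [h2]
    have h3 := Real.exp_one_lt_d9
    calc Real.exp 1 ^ 8 < 2.7182818286 ^ 8 :=
          pow_lt_pow_left₀ h3 (Real.exp_pos 1).le (by norm_num)
      _ < 3125 := by norm_num
  have h2 : (8 : ℝ) < Real.log 3125 := (Real.lt_log_iff_exp_lt (by norm_num)).2 h1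
  have h3 : Real.log 3125 = 5 * Real.log 5 := by
    rw [show (3125 : ℝ) = 5 ^ 5 by norm_num, Real.log_pow]; norm_num
  linarith

/-- the singular series factor is at most `√k` -/
lemma exp_bs (z : ℝ) {k : ℕ} (hk : 0 < k) : Real.exp (4 * bs z k) ≤ (k : ℝ) ^ (1 / 2 : ℝ) := by
  have hk0 : (0 : ℝ) < k := by exact_mod_cast hk
  have h1 : 4 * bs z k ≤ Real.log k / 2 := by
    unfold bs
    have h2 : ∀ p ∈ (pr 4 z).filter (fun p => p ∣ k), 4 * (1 / (p : ℝ)) ≤ Real.log p / 2 := by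
      intro p hp
      rw [mem_filter, mem_pr (by norm_num)] at hp
      have h3 : 5 ≤ p := by
        have : 4 < p := by exact_mod_cast hp.1.1
        omega
      have h4 : (5 : ℝ) ≤ p := by exact_mod_cast h3
      have h5 : Real.log 5 ≤ Real.log p := Real.log_le_log (by norm_num) h4
      have h6 : 1 / (p : ℝ) ≤ 1 / 5 := one_div_le_one_div_of_le (by norm_num) h4
      have := log_five
      linarith
    rw [Finset.mul_sum]
    refine (Finset.sum_le_sum h2).trans ?_
    rw [← Finset.sum_div]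
    refine div_le_div_of_nonneg_right ?_ (by norm_num)
    have h3 : ∏ p ∈ (pr 4 z).filter (fun p => p ∣ k), p ∣ k := by
      refine Finset.prod_primes_dvd k (fun p hp => ?_) fun p hp => ?_
      · rw [mem_filter, mem_pr (by norm_num)] at hp
        exact hp.1.2.2.prime
      · rw [mem_filter] at hp
        exact hp.2
    have h4 := Nat.le_of_dvd hk h3
    have h5 : ∑ p ∈ (pr 4 z).filter (fun p => p ∣ k), Real.log p =
        Real.log ((∏ p ∈ (pr 4 z).filter (fun p => p ∣ k), p : ℕ) : ℝ) := by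
      rw [Nat.cast_prod, Real.log_prod]
      intro p hp
      rw [mem_filter, mem_pr (by norm_num)] at hp
      exact_mod_cast hp.1.2.2.ne_zero
    rw [h5]
    refine Real.log_le_log ?_ (by exact_mod_cast h4)
    have : 0 < ∏ p ∈ (pr 4 z).filter (fun p => p ∣ k), p := Finset.prod_pos fun p hp => by
      rw [mem_filter, mem_pr (by norm_num)] at hp
      exact hp.1.2.2.pos
    exact_mod_cast this
  rw [Real.rpow_def_of_pos hk0]
  exact Real.exp_le_exp.2 (by linarith)

/-- the numbers `l - 1`, `l ≤ x` prime, have a common multiple `M` with `log M = o(x)` -/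
theorem lam : ∃ C : ℝ, 0 < C ∧ ∃ x₀ : ℕ, ∀ x : ℕ, x₀ ≤ x → ∃ M : ℕ, 0 < M ∧
    (∀ l : ℕ, l.Prime → l ≤ x → l - 1 ∣ M) ∧
    Real.log M ≤ C * x / Real.log x ^ (2 / 5 : ℝ) := by
  classical
  obtain ⟨C, hC, hp⟩ := pair4
  have hK := Chebyshev.eventually_primeCounting_le (ε := 1) one_pos
  obtain ⟨x₁, hx₁⟩ := eventually_atTop.1 hK
  set K : ℝ := Real.log 4 + 1 with hKdef
  have hK0 : 0 < K := by
    have : 0 < Real.log 4 := Real.log_pos (by norm_num)
    linarith
  have ev1 : ∀ᶠ x : ℝ in atTop, 3 * Real.log x ^ (2 : ℕ) ≤ x ^ (1 / 2 : ℝ) := by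
    have h := (isLittleO_log_rpow_rpow_atTop (s := 1 / 2) 2 (by norm_num)).bound
      (c := 1 / 3) (by norm_num)
    filter_upwards [h, eventually_ge_atTop 1] with x hx h1
    have h2 : 0 ≤ Real.log x := Real.log_nonneg h1
    rw [Real.norm_of_nonneg (Real.rpow_nonneg h2 _),
      Real.norm_of_nonneg (Real.rpow_nonneg (by linarith) _)] at hx
    have h3 : Real.log x ^ (2 : ℝ) = Real.log x ^ (2 : ℕ) := by
      rw [← Real.rpow_natCast]; norm_num
    rw [h3] at hx
    linarith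
  have ev2 : ∀ᶠ x : ℝ in atTop, max x₁ 1 ≤ x ^ (1 / 2 : ℝ) :=
    (tendsto_rpow_atTop (by norm_num : (0 : ℝ) < 1 / 2)).eventually_ge_atTop _
  have ev3 : ∀ᶠ x : ℝ in atTop, 1 ≤ Real.log x := Real.tendsto_log_atTop.eventually_ge_atTop 1
  have ev := (tendsto_natCast_atTop_atTop (R := ℝ)).eventually
    (ev1.and (ev2.and (ev3.and (eventually_ge_atTop ((4 : ℝ) ^ 16)))))
  obtain ⟨x₀, hx₀⟩ := eventually_atTop.1 ev
  refine ⟨4 * K + C + 1, by positivity, x₀, fun x hx => ⟨M x, M_pos x, fun l hl hlx =>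
    dvd_M hl hlx, ?_⟩⟩
  obtain ⟨h1, h2, h3, h4⟩ := hx₀ x hx
  have hx16 : 4 ^ 16 ≤ x := by exact_mod_cast h4
  have hx0 : x ≠ 0 := by omega
  have hxR : (0 : ℝ) < x := by
    have : 0 < x := Nat.pos_of_ne_zero hx0
    exact_mod_cast this
  set L : ℝ := Real.log x with hL
  set s : ℝ := (x : ℝ) ^ (1 / 2 : ℝ) with hs
  set b : ℝ := L ^ (1 / 5 : ℝ) with hb
  have hL0 : 0 ≤ L := by linarith
  have hb1 : 1 ≤ b := Real.one_le_rpow h3 (by norm_num)
  have hb0 : 0 < b := by linarith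
  have hb5 : b ^ 5 = L := by
    rw [hb, ← Real.rpow_natCast, ← Real.rpow_mul hL0]; norm_num
  have hb2 : b ^ 2 = L ^ (2 / 5 : ℝ) := by
    rw [hb, ← Real.rpow_natCast, ← Real.rpow_mul hL0]; norm_num
  have hs2 : s * s = x := by
    rw [hs, ← Real.rpow_add hxR]; norm_num
  have hs1 : 1 ≤ s := (le_max_right _ _).trans h2
  have hsx : x₁ ≤ s := (le_max_left _ _).trans h2
  have hb10 : 3 * b ^ 10 ≤ s := by
    have : b ^ 10 = L ^ 2 := by rw [← hb5]; ring
    rw [this]; exact h1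
  set J : ℕ := ⌊b ^ 2⌋₊ with hJ
  have hb2' : 1 ≤ b ^ 2 := one_le_pow₀ hb1
  have hJ1 : 1 ≤ J := Nat.one_le_floor_iff _ |>.2 hb2'
  have hJle : (J : ℝ) ≤ b ^ 2 := Nat.floor_le (by positivity)
  have hJge : b ^ 2 / 2 ≤ J := by
    have := Nat.lt_floor_add_one (b ^ 2)
    have h5 : (1 : ℝ) ≤ J := by exact_mod_cast hJ1
    rw [← hJ] at this
    linarith
  have hJ0 : (0 : ℝ) < J := by exact_mod_cast hJ1
  -- the small primes
  have hb2s : b ^ 2 ≤ s := by
    have : b ^ 2 ≤ b ^ 10 := pow_le_pow_right₀ hb1 (by norm_num)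
    nlinarith [pow_pos hb0 10]
  have hxJ : s ≤ (x : ℝ) / J := by
    rw [le_div_iff₀ hJ0, ← hs2]
    exact mul_le_mul_of_nonneg_left (hJle.trans hb2s) (by linarith)
  have hlogxJ : L / 2 ≤ Real.log ((x : ℝ) / J) := by
    have h5 : Real.log s = L / 2 := by
      rw [hs, Real.log_rpow hxR]; ring
    rw [← h5]
    exact Real.log_le_log (by linarith) hxJ
  have hpi : (Nat.primeCounting (x / J) : ℝ) ≤ 4 * K * x / b ^ 7 := by
    have h5 := hx₁ ((x : ℝ) / J) (hsx.trans hxJ)
    rw [Nat.floor_div_natCast, Nat.floor_natCast] at h5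
    refine h5.trans ?_
    have h6 : 0 < L / 2 := by linarith
    calc K * ((x : ℝ) / J) / Real.log ((x : ℝ) / J) ≤ K * ((x : ℝ) / J) / (L / 2) :=
          div_le_div_of_nonneg_left (by positivity) h6 hlogxJ
      _ ≤ K * ((x : ℝ) / (b ^ 2 / 2)) / (L / 2) := by
          refine div_le_div_of_nonneg_right ?_ h6.le
          refine mul_le_mul_of_nonneg_left ?_ hK0.le
          exact div_le_div_of_nonneg_left hxR.le (by positivity) hJge
      _ = 4 * K * x / b ^ 7 := by
          rw [← hb5]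
          field_simp
          ring
  -- the pairs
  have hpair : ∀ k ∈ Icc 1 J, (((Icc 1 x).filter fun n =>
      (1 * n + 0).Prime ∧ (k * n + 1).Prime).card : ℝ) ≤ 3 * s + C * x / b ^ 9 := by
    intro k hk
    rw [mem_Icc] at hk
    have h5 := hp x 1 0 k 1 hx16 one_pos (by omega)
    have e : 1 * k * ((((1 : ℕ) : ℤ) * ((1 : ℕ) : ℤ) - (k : ℤ) * ((0 : ℕ) : ℤ)).natAbs) = k := by
      simp
    rw [e] at h5
    refine h5.trans ?_
    have h6 := exp_bs ((x : ℝ) ^ (1 / 16 : ℝ)) (k := k) (by omega)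
    have h7 : (k : ℝ) ^ (1 / 2 : ℝ) ≤ b := by
      have h8 : (k : ℝ) ≤ b ^ 2 := by
        have : (k : ℝ) ≤ J := by exact_mod_cast hk.2
        exact this.trans hJle
      calc (k : ℝ) ^ (1 / 2 : ℝ) ≤ (b ^ 2) ^ (1 / 2 : ℝ) :=
            Real.rpow_le_rpow (by positivity) h8 (by norm_num)
        _ = b := by rw [← Real.sqrt_eq_rpow, Real.sqrt_sq hb0.le]
    have h8 : C * x / L ^ 2 * Real.exp (4 * bs ((x : ℝ) ^ (1 / 16 : ℝ)) k) ≤
        C * x / L ^ 2 * b := mul_le_mul_of_nonneg_left (h6.trans h7) (by positivity)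
    have h9 : C * x / L ^ 2 * b = C * x / b ^ 9 := by
      rw [← hb5]
      field_simp
    linarith
  have hsum : ∑ k ∈ Icc 1 J, (((Icc 1 x).filter fun n =>
      (1 * n + 0).Prime ∧ (k * n + 1).Prime).card : ℝ) ≤ b ^ 2 * (3 * s + C * x / b ^ 9) := by
    refine (Finset.sum_le_sum hpair).trans ?_
    rw [Finset.sum_const, Nat.card_Icc, nsmul_eq_mul, Nat.add_sub_cancel]
    exact mul_le_mul_of_nonneg_right hJle (by positivity)
  have hcard := card_B x J hJ1
  have hlog := log_M hx0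
  rw [← hb2]
  refine hlog.trans ?_
  rw [← hL, ← hb5]
  have h5 : ((B x).card : ℝ) ≤ 4 * K * x / b ^ 7 + b ^ 2 * (3 * s + C * x / b ^ 9) := by
    linarith
  have h6 : b ^ 7 * (3 * s) ≤ x / b ^ 2 := by
    rw [le_div_iff₀ (by positivity), ← hs2]
    have h7 : 3 * b ^ 9 ≤ s := by
      have : b ^ 9 ≤ b ^ 10 := pow_le_pow_right₀ hb1 (by norm_num)
      linarith
    calc b ^ 7 * (3 * s) * b ^ 2 = (3 * b ^ 9) * s := by ring
      _ ≤ s * s := mul_le_mul_of_nonneg_right h7 (by linarith)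
  calc ((B x).card : ℝ) * b ^ 5 ≤
        (4 * K * x / b ^ 7 + b ^ 2 * (3 * s + C * x / b ^ 9)) * b ^ 5 :=
        mul_le_mul_of_nonneg_right h5 (by positivity)
    _ = 4 * K * x / b ^ 2 + C * x / b ^ 2 + b ^ 7 * (3 * s) := by
        field_simp
        ring
    _ ≤ 4 * K * x / b ^ 2 + C * x / b ^ 2 + x / b ^ 2 := by linarith
    _ = (4 * K + C + 1) * x / b ^ 2 := by ring

end Pool.Agent.FLF
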