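import Pool.Agent.Lib.FLF.Comb

/-!
# The sharper bound `log M ≤ C x log log x / log x`
-/

set_option autoImplicit false

namespace Pool.Agent.FLF

open Finset Filter Pool.Agent.ACB13 Pool.Agent.Lib.MP_0bb3d8_nt

/-- the numbers `l - 1`, `l ≤ x` prime, have a common multiple `M` with
`log M ≤ C x log log x / log x` -/
theorem lam2_of (hS : ∃ C : ℝ, 0 < C ∧ ∀ (z : ℕ → ℝ) (J : ℕ), 1 ≤ J →
      ∑ k ∈ Icc 1 J, Real.exp (4 * bs (z k) k) / k ≤ C * (1 + Real.log J)) :
    ∃ C : ℝ, 0 < C ∧ ∃ x₀ : ℕ, ∀ x : ℕ, x₀ ≤ x → ∃ M : ℕ, 0 < M ∧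
      (∀ l : ℕ, l.Prime → l ≤ x → l - 1 ∣ M) ∧
      Real.log M ≤ C * x * Real.log (Real.log x) / Real.log x := by
  classical
  obtain ⟨C, hC, hp⟩ := pair4
  obtain ⟨C', hC', hS⟩ := hS
  have hK := Chebyshev.eventually_primeCounting_le (ε := 1) one_pos
  obtain ⟨x₁, hx₁⟩ := eventually_atTop.1 hK
  set K : ℝ := Real.log 4 + 1 with hKdef
  have hK0 : 0 < K := by
    have : 0 < Real.log 4 := Real.log_pos (by norm_num)
    linarith
  have ev1 : ∀ᶠ x : ℝ in atTop, 4 * Real.log x ^ (3 : ℕ) ≤ x ^ (1 / 2 : ℝ) := by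
    have h := (isLittleO_log_rpow_rpow_atTop (s := 1 / 2) 3 (by norm_num)).bound
      (c := 1 / 4) (by norm_num)
    filter_upwards [h, eventually_ge_atTop 1] with x hx h1
    have h2 : 0 ≤ Real.log x := Real.log_nonneg h1
    rw [Real.norm_of_nonneg (Real.rpow_nonneg h2 _),
      Real.norm_of_nonneg (Real.rpow_nonneg (by linarith) _)] at hx
    have h3 : Real.log x ^ (3 : ℝ) = Real.log x ^ (3 : ℕ) := by
      rw [← Real.rpow_natCast]; norm_num
    rw [h3] at hx
    linarith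
  have ev2 : ∀ᶠ x : ℝ in atTop, max x₁ (4 ^ 16) ≤ x ^ (1 / 2 : ℝ) :=
    (tendsto_rpow_atTop (by norm_num : (0 : ℝ) < 1 / 2)).eventually_ge_atTop _
  have ev3 : ∀ᶠ x : ℝ in atTop, Real.exp 1 ≤ Real.log x :=
    Real.tendsto_log_atTop.eventually_ge_atTop _
  have ev := (tendsto_natCast_atTop_atTop (R := ℝ)).eventually
    (ev1.and (ev2.and (ev3.and (eventually_ge_atTop (2 : ℝ)))))
  obtain ⟨x₀, hx₀⟩ := eventually_atTop.1 ev
  refine ⟨4 * K + 1 + 8 * C * C', by positivity, x₀, fun x hx => ?_⟩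
  obtain ⟨h1, h2, h3, h4⟩ := hx₀ x hx
  have hx2 : 2 ≤ x := by exact_mod_cast h4
  have hxR : (0 : ℝ) < x := by linarith
  set L : ℝ := Real.log x with hL
  set s : ℝ := (x : ℝ) ^ (1 / 2 : ℝ) with hs
  have he : (2 : ℝ) ≤ Real.exp 1 := by
    have := Real.add_one_le_exp (1 : ℝ)
    linarith
  have hL2 : 2 ≤ L := he.trans h3
  have hL0 : 0 < L := by linarith
  have hLL : 1 ≤ Real.log L := (Real.le_log_iff_exp_le hL0).2 h3
  have hs2 : s * s = x := by
    rw [hs, ← Real.rpow_add hxR]; norm_num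
  have hs16 : (4 : ℝ) ^ 16 ≤ s := (le_max_right _ _).trans h2
  have hs0 : 0 < s := lt_of_lt_of_le (by norm_num) hs16
  have hsx : x₁ ≤ s := (le_max_left _ _).trans h2
  set J : ℕ := ⌊L⌋₊ with hJ
  have hJ1 : 1 ≤ J := (Nat.one_le_floor_iff _).2 (by linarith)
  have hJle : (J : ℝ) ≤ L := Nat.floor_le hL0.le
  have hJge : L / 2 ≤ J := by
    have := Nat.lt_floor_add_one L
    have h5 : (1 : ℝ) ≤ J := by exact_mod_cast hJ1
    rw [← hJ] at this
    linarith
  have hJ0 : (0 : ℝ) < J := by exact_mod_cast hJ1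
  have h4L : 4 * L ≤ s := by
    have : L ≤ L ^ 3 := by
      nlinarith [mul_pos hL0 hL0, mul_le_mul_of_nonneg_left hL2 hL0.le]
    linarith
  have hlogs : Real.log s = L / 2 := by
    rw [hs, Real.log_rpow hxR]; ring
  -- for k ≤ J the number x / k is large
  have hdiv : ∀ k : ℕ, 1 ≤ k → k ≤ J → s ≤ ((x / k : ℕ) : ℝ) := by
    intro k hk hkJ
    have hk0 : (0 : ℝ) < k := by exact_mod_cast hk
    have h5 : (k : ℝ) ≤ L := by
      have : (k : ℝ) ≤ J := by exact_mod_cast hkJ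
      linarith
    have h6 : (x : ℝ) / k - 1 ≤ ((x / k : ℕ) : ℝ) := by
      have h7 := Nat.lt_floor_add_one ((x : ℝ) / k)
      rw [Nat.floor_div_natCast, Nat.floor_natCast] at h7
      linarith
    have h7 : 2 * s ≤ (x : ℝ) / k := by
      rw [le_div_iff₀ hk0, ← hs2]
      nlinarith
    linarith
  obtain ⟨M, hM0, hMd, hM⟩ := comb x J hJ1 hx2
  refine ⟨M, hM0, hMd, hM.trans ?_⟩
  rw [← hL]
  -- the small primes
  have hpi : (((Icc 1 (x / J)).filter Nat.Prime).card : ℝ) ≤ 4 * K * x / L ^ 2 := by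
    have h5 : ((Icc 1 (x / J)).filter Nat.Prime).card ≤ Nat.primeCounting (x / J) := by
      rw [Nat.primeCounting, Nat.primeCounting', Nat.count_eq_card_filter_range]
      refine card_le_card (filter_subset_filter _ fun r hr => ?_)
      rw [mem_Icc] at hr
      rw [mem_range]
      omega
    have h6 : (((Icc 1 (x / J)).filter Nat.Prime).card : ℝ) ≤ Nat.primeCounting (x / J) := by
      exact_mod_cast h5
    have h7 := hx₁ ((x / J : ℕ) : ℝ) (hsx.trans (hdiv J hJ1 le_rfl))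
    rw [Nat.floor_natCast] at h7
    have h8 : L / 2 ≤ Real.log ((x / J : ℕ) : ℝ) := by
      rw [← hlogs]
      exact Real.log_le_log hs0 (hdiv J hJ1 le_rfl)
    have h9 : ((x / J : ℕ) : ℝ) ≤ x / (L / 2) :=
      Nat.cast_div_le.trans (div_le_div_of_nonneg_left hxR.le (by linarith) hJge)
    calc (((Icc 1 (x / J)).filter Nat.Prime).card : ℝ) ≤
          K * ((x / J : ℕ) : ℝ) / Real.log ((x / J : ℕ) : ℝ) := h6.trans h7
      _ ≤ K * ((x / J : ℕ) : ℝ) / (L / 2) :=
          div_le_div_of_nonneg_left (by positivity) (by linarith) h8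
      _ ≤ K * (x / (L / 2)) / (L / 2) :=
          div_le_div_of_nonneg_right (mul_le_mul_of_nonneg_left h9 hK0.le) (by linarith)
      _ = 4 * K * x / L ^ 2 := by
          field_simp
          ring
  -- the pairs
  have hpair : ∀ k ∈ Icc 1 J, (((Icc 1 (x / k)).filter fun r =>
      r.Prime ∧ (k * r + 1).Prime).card : ℝ) ≤ 3 * s + 4 * C * x / L ^ 2 *
        (Real.exp (4 * bs (((x / k : ℕ) : ℝ) ^ (1 / 16 : ℝ)) k) / k) := by
    intro k hk
    rw [mem_Icc] at hk
    have hk0 : (0 : ℝ) < k := by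
      have : 0 < k := by omega
      exact_mod_cast this
    have hN := hdiv k hk.1 hk.2
    have hN16 : 4 ^ 16 ≤ x / k := by
      have : (4 : ℝ) ^ 16 ≤ ((x / k : ℕ) : ℝ) := hs16.trans hN
      exact_mod_cast this
    have h5 := hp (x / k) 1 0 k 1 hN16 one_pos (by omega)
    have e : 1 * k * ((((1 : ℕ) : ℤ) * ((1 : ℕ) : ℤ) - (k : ℤ) * ((0 : ℕ) : ℤ)).natAbs) = k := by
      simp
    rw [e] at h5
    simp only [one_mul, add_zero] at h5
    refine h5.trans ?_
    have hNx : ((x / k : ℕ) : ℝ) ≤ x / k := Nat.cast_div_le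
    have h6 : ((x / k : ℕ) : ℝ) ^ (1 / 2 : ℝ) ≤ s := by
      refine Real.rpow_le_rpow (by positivity) (hNx.trans ?_) (by norm_num)
      have : (1 : ℝ) ≤ k := by exact_mod_cast hk.1
      exact div_le_self hxR.le this
    have h7 : L / 2 ≤ Real.log ((x / k : ℕ) : ℝ) := by
      rw [← hlogs]
      exact Real.log_le_log hs0 hN
    set E : ℝ := Real.exp (4 * bs (((x / k : ℕ) : ℝ) ^ (1 / 16 : ℝ)) k) with hE
    have hE0 : 0 < E := Real.exp_pos _
    have h8 : C * ((x / k : ℕ) : ℝ) / Real.log ((x / k : ℕ) : ℝ) ^ 2 ≤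
        C * (x / k) / (L / 2) ^ 2 := by
      refine div_le_div₀ (by positivity) (mul_le_mul_of_nonneg_left hNx hC.le) (by positivity) ?_
      exact pow_le_pow_left₀ (by linarith) h7 2
    have h9 : C * ((x / k : ℕ) : ℝ) / Real.log ((x / k : ℕ) : ℝ) ^ 2 * E ≤
        4 * C * x / L ^ 2 * (E / k) := by
      calc _ ≤ C * (x / k) / (L / 2) ^ 2 * E := mul_le_mul_of_nonneg_right h8 hE0.le
        _ = 4 * C * x / L ^ 2 * (E / k) := by
          field_simp
          ring
    linarith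
  have hsum : ∑ k ∈ Icc 1 J, (((Icc 1 (x / k)).filter fun r =>
      r.Prime ∧ (k * r + 1).Prime).card : ℝ) ≤
        L * (3 * s) + 4 * C * x / L ^ 2 * (C' * (2 * Real.log L)) := by
    refine (Finset.sum_le_sum hpair).trans ?_
    rw [Finset.sum_add_distrib, Finset.sum_const, Nat.card_Icc, nsmul_eq_mul,
      Nat.add_sub_cancel, ← Finset.mul_sum]
    have h5 := hS (fun k => ((x / k : ℕ) : ℝ) ^ (1 / 16 : ℝ)) J hJ1
    have h6 : Real.log J ≤ Real.log L := Real.log_le_log hJ0 hJle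
    have h7 : C' * (1 + Real.log J) ≤ C' * (2 * Real.log L) :=
      mul_le_mul_of_nonneg_left (by linarith) hC'.le
    have h8 : (J : ℝ) * (3 * s) ≤ L * (3 * s) :=
      mul_le_mul_of_nonneg_right hJle (by positivity)
    have h9 := mul_le_mul_of_nonneg_left (h5.trans h7)
      (show (0 : ℝ) ≤ 4 * C * x / L ^ 2 by positivity)
    exact add_le_add h8 h9
  have h5 : L * (L * (3 * s)) ≤ x * Real.log L / L := by
    rw [le_div_iff₀ hL0, ← hs2]
    have h6 : 3 * L ^ 3 ≤ s * Real.log L := by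
      have : 0 ≤ L ^ 3 := by positivity
      have h7 : s ≤ s * Real.log L := le_mul_of_one_le_right hs0.le hLL
      linarith
    calc L * (L * (3 * s)) * L = (3 * L ^ 3) * s := by ring
      _ ≤ (s * Real.log L) * s := mul_le_mul_of_nonneg_right h6 hs0.le
      _ = s * s * Real.log L := by ring
  have h6 : 4 * K * x / L ≤ 4 * K * (x * Real.log L / L) := by
    rw [mul_div_assoc]
    refine mul_le_mul_of_nonneg_left ?_ (by positivity)
    exact div_le_div_of_nonneg_right (le_mul_of_one_le_right hxR.le hLL) hL0.le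
  calc L * ((((Icc 1 (x / J)).filter Nat.Prime).card : ℝ) + ∑ k ∈ Icc 1 J,
        (((Icc 1 (x / k)).filter fun r => r.Prime ∧ (k * r + 1).Prime).card : ℝ)) ≤
      L * (4 * K * x / L ^ 2 + (L * (3 * s) + 4 * C * x / L ^ 2 * (C' * (2 * Real.log L)))) :=
        mul_le_mul_of_nonneg_left (add_le_add hpi hsum) hL0.le
    _ = 4 * K * x / L + L * (L * (3 * s)) + 8 * C * C' * (x * Real.log L / L) := by
        field_simp
        ring
    _ ≤ 4 * K * (x * Real.log L / L) + x * Real.log L / L +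
        8 * C * C' * (x * Real.log L / L) := by linarith
    _ = (4 * K + 1 + 8 * C * C') * x * Real.log L / L := by ring

end Pool.Agent.FLF
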