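import Pool.Agent.Lib.FLF.Lam2

/-!
# The average of the singular series factor
-/

set_option autoImplicit false

namespace Pool.Agent.FLF

open Finset Filter Pool.Agent.ACB13 Pool.Agent.Lib.MP_0bb3d8_nt

lemma harm (J : ℕ) : ∑ m ∈ Icc 1 J, 1 / (m : ℝ) ≤ 1 + Real.log J := by
  have h := harmonic_le_one_add_log J
  rw [harmonic_eq_sum_Icc] at h
  push_cast at h
  simpa only [one_div] using h

lemma harm_dvd (J q : ℕ) (hq : 0 < q) : ∑ k ∈ (Icc 1 J).filter (fun k => q ∣ k), 1 / (k : ℝ) ≤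
    1 / (q : ℝ) * ∑ m ∈ Icc 1 J, 1 / (m : ℝ) := by
  have hq0 : (0 : ℝ) < q := by exact_mod_cast hq
  have h1 : ∑ k ∈ (Icc 1 J).filter (fun k => q ∣ k), 1 / (k : ℝ) =
      ∑ k ∈ (Icc 1 J).filter (fun k => q ∣ k), 1 / (q : ℝ) * (1 / ((k / q : ℕ) : ℝ)) := by
    refine sum_congr rfl fun k hk => ?_
    rw [mem_filter, mem_Icc] at hk
    obtain ⟨m, rfl⟩ := hk.2
    rw [Nat.mul_div_cancel_left _ hq]
    push_cast
    rw [one_div_mul_one_div]
  rw [h1, ← mul_sum]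
  refine mul_le_mul_of_nonneg_left ?_ (by positivity)
  have hinj : Set.InjOn (fun k => k / q) ((Icc 1 J).filter (fun k => q ∣ k) : Finset ℕ) := by
    intro a ha b hb hab
    rw [mem_coe, mem_filter] at ha hb
    obtain ⟨m, rfl⟩ := ha.2
    obtain ⟨n, rfl⟩ := hb.2
    simp only [Nat.mul_div_cancel_left _ hq] at hab
    rw [hab]
  have h2 := Finset.sum_image (f := fun m : ℕ => 1 / (m : ℝ)) hinj
  rw [← h2]
  refine sum_le_sum_of_subset_of_nonneg ?_ fun m _ _ => by positivity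
  intro m hm
  rw [mem_image] at hm
  obtain ⟨k, hk, rfl⟩ := hm
  rw [mem_filter, mem_Icc] at hk
  obtain ⟨m, rfl⟩ := hk.2
  rw [Nat.mul_div_cancel_left _ hq, mem_Icc]
  have h3 : m ≤ q * m := Nat.le_mul_of_pos_left m hq
  have h4 : 1 ≤ m := by
    rcases Nat.eq_zero_or_pos m with h | h
    · rw [h, mul_zero] at hk
      omega
    · exact h
  exact ⟨h4, by omega⟩

theorem sum_bs : ∃ C : ℝ, 0 < C ∧ ∀ (z : ℕ → ℝ) (J : ℕ), 1 ≤ J →
    ∑ k ∈ Icc 1 J, Real.exp (4 * bs (z k) k) / k ≤ C * (1 + Real.log J) := by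
  classical
  refine ⟨CQ * 2, by have := CQ_pos; positivity, fun z J hJ => ?_⟩
  set f : ℕ → ℝ := fun q => ACB13.lam q * (q : ℝ) ^ (1 / 8 : ℝ) with hf
  have hf0 : ∀ q, 0 ≤ f q := fun q => mul_nonneg (lam_nonneg q) (by positivity)
  set H : ℝ := ∑ m ∈ Icc 1 J, 1 / (m : ℝ) with hH
  have hH0 : 0 ≤ H := sum_nonneg fun m _ => by positivity
  have h1 : ∀ k ∈ Icc 1 J, Real.exp (4 * bs (z k) k) / k ≤
      CQ * (1 / (k : ℝ) + ∑ q ∈ PQ (J : ℝ), if q ∣ k then f q * (1 / (k : ℝ)) else 0) := by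
    intro k hk
    rw [mem_Icc] at hk
    have hk0 : (0 : ℝ) < k := by
      have : 0 < k := by omega
      exact_mod_cast this
    have h2 := bs_le (z k) (J : ℝ) k (by omega) (fun p _ hpk => by
      have := Nat.le_of_dvd (by omega) hpk
      have : p ≤ J := by omega
      exact_mod_cast this)
    rw [← Finset.sum_filter]
    calc Real.exp (4 * bs (z k) k) / k ≤
          (CQ * (1 + ∑ q ∈ (PQ (J : ℝ)).filter (fun p => p ∣ k), f q)) / k :=
          div_le_div_of_nonneg_right h2 hk0.le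
      _ = CQ * (1 / (k : ℝ) + ∑ q ∈ (PQ (J : ℝ)).filter (fun p => p ∣ k), f q * (1 / (k : ℝ))) := by
          rw [← Finset.sum_mul]
          ring
  refine (sum_le_sum h1).trans ?_
  rw [← mul_sum, sum_add_distrib, sum_comm]
  have h2 : ∑ q ∈ PQ (J : ℝ), ∑ k ∈ Icc 1 J, (if q ∣ k then f q * (1 / (k : ℝ)) else 0) ≤ H := by
    have h3 : ∀ q ∈ PQ (J : ℝ), ∑ k ∈ Icc 1 J, (if q ∣ k then f q * (1 / (k : ℝ)) else 0) ≤
        ACB13.lam q * H := by
      intro q hq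
      rw [mem_PQ] at hq
      have hq0 : 0 < q := hq.2.2.pos
      have hq1 : (1 : ℝ) ≤ q := by exact_mod_cast hq0
      rw [← Finset.sum_filter, ← mul_sum]
      have h4 := mul_le_mul_of_nonneg_left (harm_dvd J q hq0) (hf0 q)
      refine h4.trans ?_
      have h5 : (q : ℝ) ^ (1 / 8 : ℝ) * (1 / q) ≤ 1 := by
        rw [mul_one_div, div_le_one (by linarith)]
        calc (q : ℝ) ^ (1 / 8 : ℝ) ≤ (q : ℝ) ^ (1 : ℝ) :=
              Real.rpow_le_rpow_of_exponent_le hq1 (by norm_num)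
          _ = q := Real.rpow_one _
      calc f q * (1 / (q : ℝ) * H) = ACB13.lam q * (((q : ℝ) ^ (1 / 8 : ℝ) * (1 / q)) * H) := by
            rw [hf]; ring
        _ ≤ ACB13.lam q * (1 * H) := mul_le_mul_of_nonneg_left
            (mul_le_mul_of_nonneg_right h5 hH0) (lam_nonneg q)
        _ = ACB13.lam q * H := by rw [one_mul]
    refine (sum_le_sum h3).trans ?_
    rw [← sum_mul]
    have h4 := sum_lam (PQ (J : ℝ)) (fun q hq => by
      rw [mem_PQ] at hq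
      exact ⟨hq.2.2, hq.1⟩)
    calc (∑ q ∈ PQ (J : ℝ), ACB13.lam q) * H ≤ 1 * H := mul_le_mul_of_nonneg_right h4 hH0
      _ = H := one_mul H
  have h3 := harm J
  calc CQ * (∑ k ∈ Icc 1 J, 1 / (k : ℝ) +
        ∑ q ∈ PQ (J : ℝ), ∑ k ∈ Icc 1 J, (if q ∣ k then f q * (1 / (k : ℝ)) else 0)) ≤
      CQ * (H + H) := mul_le_mul_of_nonneg_left (add_le_add le_rfl h2) CQ_pos.le
    _ = CQ * 2 * H := by ring
    _ ≤ CQ * 2 * (1 + Real.log J) :=
        mul_le_mul_of_nonneg_left h3 (by have := CQ_pos; positivity)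

/-- the numbers `l - 1`, `l ≤ x` prime, have a common multiple `M` with
`log M ≤ C x log log x / log x` -/
theorem lam2 : ∃ C : ℝ, 0 < C ∧ ∃ x₀ : ℕ, ∀ x : ℕ, x₀ ≤ x → ∃ M : ℕ, 0 < M ∧
    (∀ l : ℕ, l.Prime → l ≤ x → l - 1 ∣ M) ∧
    Real.log M ≤ C * x * Real.log (Real.log x) / Real.log x := lam2_of sum_bs

end Pool.Agent.FLF
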